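import Pool.Agent.U753.MY.Stm

/-!
# Project MY, package LG (helper129): local approximation from an interaction

This is the second half of the proof of `Pool.Agent.U753.MK.mk1` (helper753) with a given
interaction `h` instead of the conditional entropy interaction.
-/

set_option autoImplicit false
set_option linter.all false

open scoped BigOperators ComplexConjugate Classical InnerProductSpace Matrix ComplexOrder
open scoped Matrix.Norms.L2Operator

noncomputable section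

namespace Pool.Agent.U129.MY

open Pool.Agent.Y738.PE Pool.Agent.N658.TP Pool.Agent.TH235 Pool.Agent.U753.MK
open Pool.Agent.U753.MY (StmLG)

theorem t_lg : StmLG := by
  intro d hd R
  obtain ⟨r, hr, hreg⟩ := region_of_box d R
  obtain ⟨c, hc1, hfin⟩ := fin_box pipe' d r hd hr
  obtain ⟨C₁', hC₁', hreach⟩ := reachX d r hd hr
  obtain ⟨C₁, hC₁⟩ : ∃ C₁ : ℝ, C₁ = max C₁' 1 := ⟨_, rfl⟩
  have hC1 : 1 ≤ C₁ := by rw [hC₁]; exact le_max_right _ _
  have hCC : C₁' ≤ C₁ := by rw [hC₁]; exact le_max_left _ _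
  have hr1 : (1 : ℝ) ≤ r := by exact_mod_cast hr
  have hc0 : 0 < c := by linarith
  have hC0 : 0 < C₁ := by linarith
  have hcC1 : 1 ≤ c * C₁ := one_le_mul_of_one_le_of_one_le hc1 hC1
  have h2cC : 2 * c * C₁ = 2 * (c * C₁) := by ring
  have hC12 : 1 ≤ C₁ ^ 2 := one_le_pow₀ hC1
  have hcC2 : c ≤ c * C₁ ^ 2 := le_mul_of_one_le_right hc0.le hC12
  obtain ⟨C, hC⟩ : ∃ C : ℝ, C = r + c + 8 * (c * C₁ ^ 2) := ⟨_, rfl⟩
  have hCpos : 0 < C := by rw [hC]; linarith
  refine ⟨C, hCpos, ?_⟩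
  intro ε hε hε1 b hb n L _ _ hnL J hJ1 hCm Ψ hΨ hTI κ hκ h hh hhJ hfree
  have hTIe := transInv_expec Ψ hΨ hTI
  have hb1 : (1 : ℝ) ≤ b := by exact_mod_cast hb
  have hb0 : (0 : ℝ) < b := by linarith
  have hJ0 : 0 < J := by linarith
  obtain ⟨ε', hε'⟩ : ∃ ε' : ℝ, ε' = ε / (2 * c * C₁) := ⟨_, rfl⟩
  have hε'0 : 0 < ε' := by rw [hε']; positivity
  have hε'1 : ε' ≤ 1 := by
    rw [hε', div_le_one (by positivity), h2cC]
    linarith
  obtain ⟨m, hm⟩ : ∃ m : ℝ, m = ((2 * n : ℕ) : ℝ) := ⟨_, rfl⟩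
  have hbJ : 1 ≤ (b : ℝ) * J := one_le_mul_of_one_le_of_one_le hb1 hJ1
  -- the side of the torus is large
  have hside : ∀ x : ℝ, 0 ≤ x → x ≤ C * b * J / ε → x ≤ m := fun x _ hx => by
    rw [hm]; exact hx.trans hCm
  have hCle : ∀ q : ℝ, 0 ≤ q → q ≤ C → q * (b * J) / ε ≤ m := fun q hq hqC => by
    rw [hm]
    refine le_trans ?_ hCm
    refine div_le_div_of_nonneg_right ?_ hε.le
    rw [mul_assoc]
    exact mul_le_mul_of_nonneg_right hqC (by positivity)
  have hrm : (r : ℝ) ≤ m := by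
    refine le_trans ?_ (hCle r (by linarith) (by rw [hC]; nlinarith))
    rw [le_div_iff₀ hε]
    calc (r : ℝ) * ε ≤ r * 1 := mul_le_mul_of_nonneg_left hε1 (by linarith)
      _ ≤ r * (b * J) := mul_le_mul_of_nonneg_left hbJ (by linarith)
  have hm1 : 1 ≤ m := by linarith
  have hmL : m ≤ L := by
    rw [hm]
    exact_mod_cast hnL
  have hrL : r ≤ L := by
    have : (r : ℝ) ≤ L := hrm.trans hmL
    exact_mod_cast this
  have hbm : b ≤ 2 * n := by
    have h6 : (b : ℝ) ≤ ((2 * n : ℕ) : ℝ) := by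
      rw [← hm]
      refine le_trans ?_ (hCle 1 (by norm_num) (by rw [hC]; linarith))
      rw [one_mul, le_div_iff₀ hε]
      calc (b : ℝ) * ε ≤ b * 1 := mul_le_mul_of_nonneg_left hε1 hb0.le
        _ ≤ b * J := mul_le_mul_of_nonneg_left hJ1 hb0.le
    exact_mod_cast h6
  -- the interaction
  have hterm : ∀ u : PP.Site (2 * n), ‖PP.term h u‖ ≤ J := by
    intro u
    obtain ⟨-, -, hT, -⟩ := term' d b (2 * n) (by omega) hbm u
    exact (hT h).trans hhJ
  have hcontr : Contr (fun x y => ((J⁻¹ : ℝ) : ℂ) * h x y) := by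
    have h5 : ‖((J⁻¹ : ℝ) : ℂ) • h‖ ≤ 1 := by
      rw [norm_smul, Complex.norm_real, Real.norm_eq_abs, abs_of_pos (inv_pos.2 hJ0),
        inv_mul_le_iff₀ hJ0, mul_one]
      exact hhJ
    exact contr_of_norm _ h5
  obtain ⟨R', hR'⟩ : ∃ R' : ℕ, b = R' + 1 := ⟨b - 1, by omega⟩
  have hbR : (b : ℝ) = (R' : ℝ) + 1 := by rw [hR']; push_cast; ring
  subst hR'
  have hcd : C₁' * ((R' : ℝ) + 1) * J / ε' ≤ ((2 * n : ℕ) : ℝ) := by
    rw [← hm]
    refine le_trans ?_ (hCle (2 * (c * C₁ ^ 2)) (by positivity) (by rw [hC]; linarith))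
    rw [← hbR, hε']
    have e1 : C₁' * (((R' + 1 : ℕ)) : ℝ) * J / (ε / (2 * c * C₁)) =
        C₁' * (2 * c * C₁) * ((((R' + 1 : ℕ)) : ℝ) * J) / ε := by
      field_simp
    rw [e1]
    refine div_le_div_of_nonneg_right (mul_le_mul_of_nonneg_right ?_ (by linarith)) hε.le
    calc C₁' * (2 * c * C₁) ≤ C₁ * (2 * c * C₁) := mul_le_mul_of_nonneg_right hCC (by positivity)
      _ = 2 * (c * C₁ ^ 2) := by ring
  obtain ⟨f, hf, hF⟩ := hreach R' n L hnL ε' hε'0 hε'1 J hJ1 hcd Ψ hΨ hTIe h hh hterm hcontr κ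
    hκ hfree
  rw [← hm, ← hbR] at hf
  have hF' : Reach d r (2 * n) f (fun B => expec Ψ 0 B) (ε / (2 * c)) := by
    refine Pool.Agent.N286.TP.reach_mono ?_ hF
    have h1 : C₁' * ε' ≤ C₁ * ε' := mul_le_mul_of_nonneg_right hCC hε'0.le
    have h2 : C₁ * ε' = ε / (2 * c) := by rw [hε']; field_simp
    linarith
  have hc3 : 2 * c / ε ≤ ((2 * n : ℕ) : ℝ) := by
    rw [← hm]
    refine le_trans ?_ (hCle (2 * c) (by positivity) (by rw [hC]; linarith))
    refine div_le_div_of_nonneg_right ?_ hε.le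
    exact le_mul_of_one_le_right (by linarith) hbJ
  obtain ⟨D, A, hD, hA⟩ := hfin ε hε hε1 (2 * n) f L hc3 hrL _ hf Ψ hΨ hF'
  rw [← hm] at hD hA ⊢
  obtain ⟨β, hβ⟩ : ∃ β : ℝ, β = ((R' + 1 : ℕ) : ℝ) := ⟨_, rfl⟩
  rw [← hβ] at hD hb1 hb0 ⊢
  refine ⟨D, A, hD.trans (Real.exp_le_exp.2 ?_), ?_⟩
  · have hβ24 : 1 ≤ β ^ 24 := one_le_pow₀ hb1
    have hlm0 : 0 ≤ Real.log m := Real.log_nonneg hm1
    obtain ⟨s, hs⟩ : ∃ s : ℝ, s = κ / ε := ⟨_, rfl⟩
    have hs0 : 0 ≤ s := by rw [hs]; positivity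
    rw [← hs]
    have e1 : κ / ε' = 2 * c * C₁ * s := by
      rw [hs, hε']
      field_simp
    rw [e1]
    have hP : 0 ≤ J + s + Real.log m := by linarith
    have hP' : 0 ≤ β ^ 24 * (J + s + Real.log m) := by positivity
    have k1 : c * Real.log m ≤ c * (β ^ 24 * (J + s + Real.log m)) := by
      refine mul_le_mul_of_nonneg_left ?_ hc0.le
      have := le_mul_of_one_le_left hP hβ24
      linarith
    have k2 : J + 2 * c * C₁ * s + Real.log m ≤ 2 * c * C₁ * (J + s + Real.log m) := by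
      have q0 : 1 ≤ 2 * c * C₁ := by linarith
      have q1 : J ≤ 2 * c * C₁ * J := le_mul_of_one_le_left hJ0.le q0
      have q2 : Real.log m ≤ 2 * c * C₁ * Real.log m := le_mul_of_one_le_left hlm0 q0
      rw [mul_add, mul_add]
      linarith
    have k3 : C₁' * β ^ 24 * (J + 2 * c * C₁ * s + Real.log m) ≤
        2 * (c * C₁ ^ 2) * (β ^ 24 * (J + s + Real.log m)) := by
      calc C₁' * β ^ 24 * (J + 2 * c * C₁ * s + Real.log m)
          ≤ (C₁ * β ^ 24) * (2 * c * C₁ * (J + s + Real.log m)) :=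
            mul_le_mul (mul_le_mul_of_nonneg_right hCC (by positivity)) k2 (by positivity)
              (by positivity)
        _ = _ := by ring
    calc c * Real.log m + 4 * (C₁' * β ^ 24 * (J + 2 * c * C₁ * s + Real.log m))
        ≤ c * (β ^ 24 * (J + s + Real.log m)) +
          4 * (2 * (c * C₁ ^ 2) * (β ^ 24 * (J + s + Real.log m))) := by linarith
      _ = (c + 8 * (c * C₁ ^ 2)) * (β ^ 24 * (J + s + Real.log m)) := by ring
      _ ≤ C * (β ^ 24 * (J + s + Real.log m)) :=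
          mul_le_mul_of_nonneg_right (by rw [hC]; linarith) hP'
      _ = _ := by ring
  · intro L' _ hL'
    have hT : c * m ^ 4 ≤ L' := by
      refine le_trans ?_ hL'
      exact mul_le_mul_of_nonneg_right (by rw [hC]; linarith) (by positivity)
    have hrT : (r : ℝ) ≤ c * m ^ 4 := by
      have h1 : m ≤ m ^ 4 := le_self_pow₀ hm1 (by norm_num)
      have h2 : m ^ 4 ≤ c * m ^ 4 := le_mul_of_one_le_left (by positivity) hc1
      linarith
    exact hreg D L A Ψ (c * m ^ 4) ε hrL hrT hΨ hTIe hA L' hT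

end Pool.Agent.U129.MY
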